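import Pool.Agent.H82.PRP.Stmts

/-!
# GUP: upper bound for the dimensions of the quotients of a finite quotient of `F / N`
-/

set_option autoImplicit false

namespace Pool.Agent.H82.PRP

open Filter Topology

theorem gup_thm (hPBW : PBWStmt) : GUPStmt := by
  intro p _ F _ _ _ _ _ gen D hD N _ s hs U n hn t ht0 ht1
  obtain ⟨φ, hφ⟩ : ∃ φ : F →* (F ⧸ N) ⧸ U.toSubgroup,
      φ = (QuotientGroup.mk' U.toSubgroup).comp (QuotientGroup.mk' N) := ⟨_, rfl⟩
  have hsurj : Function.Surjective φ := by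
    rw [hφ]
    exact (QuotientGroup.mk'_surjective _).comp (QuotientGroup.mk'_surjective _)
  have hN : N ≤ φ.ker := by
    intro x hx
    rw [MonoidHom.mem_ker, hφ, MonoidHom.comp_apply]
    have h1 : QuotientGroup.mk' N x = 1 := by
      rw [← MonoidHom.mem_ker, QuotientGroup.ker_mk']
      exact hx
    rw [h1, map_one]
  have hker : φ.ker = U.toSubgroup.comap (QuotientGroup.mk' N) := by
    rw [hφ, ← MonoidHom.comap_ker, QuotientGroup.ker_mk']
  obtain ⟨n0, hn0⟩ : ∃ n, D n ≤ φ.ker := by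
    have hopen : IsOpen (φ.ker : Set F) := by
      rw [hker]
      exact U.isOpen'.preimage QuotientGroup.continuous_mk
    exact hD.basis _ hopen (one_mem φ.ker)
  obtain ⟨e, he⟩ := hD.index n0
  have hp0 : (p : ℕ) ≠ 0 := (Fact.out : p.Prime).ne_zero
  have hcard : Nat.card ((F ⧸ N) ⧸ U.toSubgroup) ∣ p ^ e := by
    rw [← he]
    have h1 : φ.ker.index = Nat.card ((F ⧸ N) ⧸ U.toSubgroup) := by
      rw [Subgroup.index_ker, MonoidHom.range_eq_top.2 hsurj, Subgroup.card_top]
    rw [← h1]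
    exact Subgroup.index_dvd_of_le hn0
  have hfin : Finite ((F ⧸ N) ⧸ U.toSubgroup) := by
    apply Nat.finite_of_card_ne_zero
    intro h0
    rw [h0, zero_dvd_iff] at hcard
    exact pow_ne_zero e hp0 hcard
  have hpg : IsPGroup p ((F ⧸ N) ⧸ U.toSubgroup) := by
    obtain ⟨j, _, hj⟩ := (Nat.dvd_prime_pow (Fact.out : p.Prime)).1 hcard
    exact IsPGroup.of_card hj
  refine hPBW p _ hpg (fun k => (D k).map φ) ?_ ?_ ?_ ?_ s ?_ n hn t ht0 ht1
  · intro k
    exact (hD.normal k).map φ hsurj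
  · intro a b hab
    exact Subgroup.map_mono (hD.anti hab)
  · rw [hD.one, ← MonoidHom.range_eq_map, MonoidHom.range_eq_top.2 hsurj]
  · rintro k hk _ ⟨w, hw, rfl⟩
    exact hD.aug _ φ ⟨n0, hn0⟩ k hk w hw
  · intro k hk
    refine le_trans ?_ (hs k hk)
    rw [Subgroup.relIndex_map_map]
    have hA : (D (k + 1)).Normal := hD.normal (k + 1)
    have h1 : D k ⊔ φ.ker = (D k ⊔ N) ⊔ (D (k + 1) ⊔ φ.ker) := by
      apply le_antisymm
      · exact sup_le (le_sup_left.trans le_sup_left) (le_sup_right.trans le_sup_right)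
      · exact sup_le (sup_le_sup_left hN _) (sup_le_sup_right (hD.anti (Nat.le_succ k)) _)
    rw [h1, Subgroup.relIndex_sup_right]
    apply Subgroup.relIndex_le_of_le_left (sup_le_sup_left hN _)
    intro h0
    have h2 := Subgroup.index_eq_zero_of_relIndex_eq_zero h0
    obtain ⟨e', he'⟩ := hD.index (k + 1)
    have h3 := Subgroup.index_dvd_of_le (le_sup_left : D (k + 1) ≤ D (k + 1) ⊔ N)
    rw [h2, he', zero_dvd_iff] at h3
    exact pow_ne_zero e' hp0 h3

end Pool.Agent.H82.PRP
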