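import Pool.Agent.H82.PRP.Stmts

/-!
# RNK: groups which map onto all `C_p ≀ C_{p^m}` have infinite rank
-/

set_option autoImplicit false

namespace Pool.Agent.H82.PRP

open Filter Topology

namespace RNK

theorem open_preimage {G Q : Type} [Group G] [Group Q] [TopologicalSpace G]
    [IsTopologicalGroup G] (φ : G →* Q) (h : IsOpen (φ.ker : Set G)) (S : Set Q) :
    IsOpen (φ ⁻¹' S) := by
  rw [isOpen_iff_forall_mem_open]
  intro g hg
  refine ⟨(fun x => g⁻¹ * x) ⁻¹' (φ.ker : Set G), ?_, h.preimage (continuous_const_mul g⁻¹), ?_⟩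
  · intro x hx
    have h1 : g⁻¹ * x ∈ φ.ker := hx
    rw [MonoidHom.mem_ker, map_mul, map_inv, inv_mul_eq_one] at h1
    change φ x ∈ S
    rw [← h1]
    exact hg
  · change g⁻¹ * g ∈ φ.ker
    rw [inv_mul_cancel]
    exact one_mem _

end RNK

open RNK in
theorem rnk_thm : RNKStmt := by
  intro p _ G _ _ _ hG
  rintro ⟨r, hr⟩
  have hp : p.Prime := Fact.out
  obtain ⟨m, hm⟩ : ∃ m, r < p ^ m := ⟨r, Nat.lt_pow_self hp.one_lt⟩
  obtain ⟨φ, hsurj, hopen⟩ := hG m
  have : NeZero (p ^ m) := ⟨pow_ne_zero _ hp.ne_zero⟩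
  obtain ⟨B, hB⟩ : ∃ B : Subgroup (Lamp p m), ∀ q, q ∈ B ↔ q.pos = 0 :=
    ⟨{ carrier := {q | q.pos = 0}
       mul_mem' := by
        intro a b ha hb
        change (a * b).pos = 0
        have h1 : a.pos = 0 := ha
        have h2 : b.pos = 0 := hb
        rw [Lamp.mul_pos', h1, h2, add_zero]
       one_mem' := rfl
       inv_mem' := by
        intro a ha
        change (a⁻¹).pos = 0
        have h1 : a.pos = 0 := ha
        rw [Lamp.inv_pos', h1, neg_zero] }, fun q => Iff.rfl⟩
  have hclosed : IsClosed ((B.comap φ : Subgroup G) : Set G) := by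
    rw [← isOpen_compl_iff]
    exact open_preimage φ hopen (B : Set (Lamp p m))ᶜ
  obtain ⟨d, hd, s, hs⟩ := hr (B.comap φ) hclosed
  have hpos : ∀ h : B.comap φ, (φ h).pos = 0 := fun h => (hB _).1 h.2
  -- every vector is the lamp part of an element of the group generated by `s`
  have hfull : ∀ v : ZMod (p ^ m) → ZMod p, ∃ h ∈ Subgroup.closure (Set.range s),
      (φ (h : G)).lamp = v := by
    intro v
    have ho : IsOpen {h : B.comap φ | (φ (h : G)).lamp = v} :=
      (open_preimage φ hopen {q | q.lamp = v}).preimage continuous_subtype_val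
    obtain ⟨g, hg⟩ := hsurj ⟨v, 0⟩
    have hgB : g ∈ B.comap φ := by
      rw [Subgroup.mem_comap, hB, hg]
    obtain ⟨h, h1, h2⟩ := hs _ ho ⟨⟨g, hgB⟩, by
      change (φ g).lamp = v
      rw [hg]⟩
    exact ⟨h, h2, h1⟩
  obtain ⟨L, hL⟩ : ∃ L : (Fin d → ZMod p) →ₗ[ZMod p] (ZMod (p ^ m) → ZMod p),
      ∀ c, L c = ∑ i, c i • (φ (s i : G)).lamp :=
    ⟨Fintype.linearCombination (ZMod p) fun i => (φ (s i : G)).lamp, fun c => rfl⟩
  have hLs : ∀ i, (φ (s i : G)).lamp ∈ LinearMap.range L := by
    intro i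
    refine ⟨Pi.single i 1, ?_⟩
    rw [hL, Finset.sum_eq_single i]
    · rw [Pi.single_eq_same, one_smul]
    · intro j _ hj
      rw [Pi.single_eq_of_ne hj, zero_smul]
    · intro h
      exact absurd (Finset.mem_univ i) h
  have hmem : ∀ h ∈ Subgroup.closure (Set.range s), (φ (h : G)).lamp ∈ LinearMap.range L := by
    intro h hh
    induction hh using Subgroup.closure_induction with
    | mem x hx =>
      obtain ⟨i, rfl⟩ := hx
      exact hLs i
    | one =>
      have : (φ ((1 : B.comap φ) : G)).lamp = 0 := by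
        rw [Subgroup.coe_one, map_one]
        rfl
      rw [this]
      exact zero_mem _
    | mul x y _ _ hx hy =>
      have : (φ ((x * y : B.comap φ) : G)).lamp = (φ (x : G)).lamp + (φ (y : G)).lamp := by
        funext i
        rw [Subgroup.coe_mul, map_mul, Lamp.mul_lamp, hpos x, sub_zero]
        rfl
      rw [this]
      exact add_mem hx hy
    | inv x _ hx =>
      have : (φ ((x⁻¹ : B.comap φ) : G)).lamp = -(φ (x : G)).lamp := by
        funext i
        rw [Subgroup.coe_inv, map_inv, Lamp.inv_lamp, hpos x, add_zero]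
        rfl
      rw [this]
      exact neg_mem hx
  have hLsurj : Function.Surjective L := by
    intro v
    obtain ⟨h, hh, rfl⟩ := hfull v
    exact hmem h hh
  have hcard := Nat.card_le_card_of_surjective L hLsurj
  have h1 : Nat.card (ZMod (p ^ m) → ZMod p) = p ^ (p ^ m) := by
    rw [Nat.card_fun, Nat.card_zmod, Nat.card_zmod]
  have h2 : Nat.card (Fin d → ZMod p) = p ^ d := by
    rw [Nat.card_fun, Nat.card_zmod, Nat.card_eq_fintype_card, Fintype.card_fin]
  rw [h1, h2] at hcard
  have h3 := (Nat.pow_le_pow_iff_right hp.one_lt).1 hcard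
  omega

end Pool.Agent.H82.PRP
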